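import Pool.Agent.Helper87.RAM.Defs

/-!
Lower bound for the cost of a trajectory which crosses the thin triangle.
-/

open MeasureTheory Set

namespace Pool.Agent.Helper87.RAM

/-- the last visit to the safe region -/
private noncomputable def lastv (z : ℝ) (γ : ℝ → ℂ) (t : ℝ) : ℝ :=
  sSup {r | 0 ≤ r ∧ r ≤ t ∧ γ r ∈ Xsafe ∅ (tri z)}

private theorem lastv_le {z : ℝ} {γ : ℝ → ℂ} {t : ℝ} (ht : 0 ≤ t) : lastv z γ t ≤ t :=
  Real.sSup_le (fun _ h => h.2.1) ht

private theorem lastv_nonneg {z : ℝ} {γ : ℝ → ℂ} {t : ℝ} : 0 ≤ lastv z γ t :=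
  Real.sSup_nonneg fun _ h => h.1

private theorem lastv_mono (z : ℝ) (γ : ℝ → ℂ) : Monotone (lastv z γ) := by
  intro t t' htt
  unfold lastv
  rcases Set.eq_empty_or_nonempty {r | 0 ≤ r ∧ r ≤ t ∧ γ r ∈ Xsafe ∅ (tri z)} with h | h
  · rw [h, Real.sSup_empty]
    exact Real.sSup_nonneg fun _ h => h.1
  · exact csSup_le_csSup ⟨t', fun _ h => h.2.1⟩ h fun r hr => ⟨hr.1, hr.2.1.trans htt, hr.2.2⟩

private theorem exposure_nonneg {z : ℝ} {γ : ℝ → ℂ} {t : ℝ} (ht : 0 ≤ t) :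
    0 ≤ exposure ∅ (tri z) γ t := sub_nonneg.mpr (lastv_le ht)

private theorem exposure_le {z : ℝ} {γ : ℝ → ℂ} {t : ℝ} :
    exposure ∅ (tri z) γ t ≤ t := sub_le_self _ lastv_nonneg

private theorem measurable_exposure (z : ℝ) (γ : ℝ → ℂ) :
    Measurable fun t => Real.exp (exposure ∅ (tri z) γ t) :=
  Real.measurable_exp.comp (measurable_id.sub (lastv_mono z γ).measurable)

private theorem intervalIntegrable_exposure (z : ℝ) (γ : ℝ → ℂ) {a b : ℝ} :
    IntervalIntegrable (fun t => Real.exp (exposure ∅ (tri z) γ t)) volume a b := by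
  have hc : IntervalIntegrable (fun t : ℝ => Real.exp t) volume a b :=
    Real.continuous_exp.intervalIntegrable _ _
  refine hc.mono_fun (measurable_exposure z γ).aestronglyMeasurable ?_
  refine Filter.Eventually.of_forall fun t => ?_
  simp only [Real.norm_eq_abs, Real.abs_exp]
  exact Real.exp_le_exp.mpr exposure_le

theorem dist_le_of_isTraj {z : ℝ} {T : ℝ} {γ : ℝ → ℂ}
    (h : IsTraj ∅ (tri z) (ss z) (gg z) T γ) {a b : ℝ} (ha : 0 ≤ a) (hab : a ≤ b) (hb : b ≤ T) :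
    dist (γ a) (γ b) ≤ b - a := by
  have hs := h.speed
  have h1 := hs (show a ∈ Icc 0 T from ⟨ha, hab.trans hb⟩) (show b ∈ Icc 0 T from ⟨ha.trans hab, hb⟩)
  have h2 : edist (γ a) (γ b) ≤ eVariationOn γ (Icc 0 T ∩ Icc a b) :=
    eVariationOn.edist_le γ ⟨⟨ha, hab.trans hb⟩, ⟨le_rfl, hab⟩⟩ ⟨⟨ha.trans hab, hb⟩, ⟨hab, le_rfl⟩⟩
  rw [h1] at h2
  rw [edist_dist] at h2
  have h3 := (ENNReal.ofReal_le_ofReal_iff (by simp; linarith)).mp h2
  simpa using h3

theorem length_le_cost {z : ℝ} {T : ℝ} {γ : ℝ → ℂ}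
    (h : IsTraj ∅ (tri z) (ss z) (gg z) T γ) : T ≤ cost ∅ (tri z) T γ := by
  have hT := h.nonneg
  unfold cost
  calc T = ∫ _ in (0 : ℝ)..T, (1 : ℝ) := by simp
    _ ≤ _ := by
      apply intervalIntegral.integral_mono_on hT (by simp)
        (intervalIntegrable_exposure z γ)
      intro t ht
      exact Real.one_le_exp (exposure_nonneg ht.1)

theorem mem_interior_tri {z : ℝ} (hz : 0 < z) {w : ℂ} (h1 : 0 < w.im) (h2 : w.im < th z * w.re)
    (h3 : w.re < Real.exp z) : w ∈ interior (tri z) := by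
  have hopen : IsOpen {w : ℂ | 0 < w.im ∧ w.im < th z * w.re ∧ w.re < Real.exp z} := by
    refine (isOpen_lt continuous_const Complex.continuous_im).inter
      ((isOpen_lt Complex.continuous_im (continuous_const.mul Complex.continuous_re)).inter
        (isOpen_lt Complex.continuous_re continuous_const))
  refine interior_maximal ?_ hopen ⟨h1, h2, h3⟩
  rintro w ⟨h1, h2, h3⟩
  have he := Real.exp_pos z
  have hth : th z = 2 * z / Real.exp z := by
    unfold th
    rw [Real.exp_neg]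
    field_simp
  rw [hth] at h2
  have hx : 0 < w.re := by
    by_contra hx
    have : 2 * z / Real.exp z * w.re ≤ 0 :=
      mul_nonpos_of_nonneg_of_nonpos (by positivity) (not_lt.mp hx)
    linarith
  unfold tri
  have hconv := convex_convexHull ℝ ({(0 : ℂ), ⟨Real.exp z, 0⟩, ⟨Real.exp z, 2 * z⟩} : Set ℂ)
  have m1 : (0 : ℂ) ∈ convexHull ℝ ({(0 : ℂ), ⟨Real.exp z, 0⟩, ⟨Real.exp z, 2 * z⟩} : Set ℂ) :=
    subset_convexHull ℝ _ (by simp)
  have m2 : (⟨Real.exp z, 0⟩ : ℂ) ∈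
      convexHull ℝ ({(0 : ℂ), ⟨Real.exp z, 0⟩, ⟨Real.exp z, 2 * z⟩} : Set ℂ) :=
    subset_convexHull ℝ _ (by simp)
  have m3 : (⟨Real.exp z, 2 * z⟩ : ℂ) ∈
      convexHull ℝ ({(0 : ℂ), ⟨Real.exp z, 0⟩, ⟨Real.exp z, 2 * z⟩} : Set ℂ) :=
    subset_convexHull ℝ _ (by simp)
  -- the point `u` of the vertical side
  have hc : w.im * Real.exp z / (2 * z * w.re) ≤ 1 := by
    rw [div_le_one (by positivity)]
    have : 2 * z / Real.exp z * w.re * Real.exp z = 2 * z * w.re := by field_simp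
    nlinarith
  have hc0 : 0 ≤ w.im * Real.exp z / (2 * z * w.re) := by positivity
  have hu := hconv m2 m3 (sub_nonneg.mpr hc) hc0 (by ring)
  have hs0 : 0 ≤ w.re / Real.exp z := by positivity
  have hs1 : w.re / Real.exp z ≤ 1 := (div_le_one he).mpr h3.le
  have hw := hconv m1 hu (sub_nonneg.mpr hs1) hs0 (by ring)
  convert hw using 1
  apply Complex.ext
  · simp only [Complex.add_re, Complex.smul_re, smul_eq_mul, Complex.zero_re]
    field_simp
    ring
  · simp only [Complex.add_im, Complex.smul_im, smul_eq_mul, Complex.zero_im]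
    field_simp
    ring

theorem not_mem_Xsafe {z : ℝ} {w : ℂ} (h : w ∈ interior (tri z)) : w ∉ Xsafe ∅ (tri z) := by
  intro h'
  apply h'
  left
  left
  exact h

theorem cost_lower {z : ℝ} (hz : 0 < z) {T : ℝ} {γ : ℝ → ℂ}
    (h : IsTraj ∅ (tri z) (ss z) (gg z) T γ) (hT : T < XX z) {m : ℝ}
    (hm : ∀ t ∈ Icc 0 T, m ≤ (γ t).re) (hm' : ∃ t ∈ Icc 0 T, (γ t).re = m) :
    2 * (XX z - m) + (Real.exp (th z * m) - 1 - th z * m) ≤ cost ∅ (tri z) T γ := by
  have hT0 := h.nonneg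
  have hX : XX z = Real.exp z / 2 := rfl
  have he := Real.exp_pos z
  have hth0 : 0 < th z := by unfold th; positivity
  have hthX : th z * XX z = z := by
    unfold th XX
    rw [Real.exp_neg]
    field_simp
  have hγ0 : γ 0 = ss z := h.start
  have hγT : γ T = gg z := h.finish
  have hre0 : (γ 0).re = XX z := by rw [hγ0]; rfl
  have him0 : (γ 0).im = 0 := by rw [hγ0]; rfl
  have hreT : (γ T).re = XX z := by rw [hγT]; rfl
  have himT : (γ T).im = z := by rw [hγT]; rfl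
  have hre : ∀ a b : ℝ, 0 ≤ a → a ≤ b → b ≤ T → |(γ a).re - (γ b).re| ≤ b - a := by
    intro a b ha hab hb
    refine le_trans ?_ (dist_le_of_isTraj h ha hab hb)
    rw [Complex.dist_eq, ← Complex.sub_re]
    exact Complex.abs_re_le_norm _
  have him : ∀ a b : ℝ, 0 ≤ a → a ≤ b → b ≤ T → |(γ a).im - (γ b).im| ≤ b - a := by
    intro a b ha hab hb
    refine le_trans ?_ (dist_le_of_isTraj h ha hab hb)
    rw [Complex.dist_eq, ← Complex.sub_im]
    exact Complex.abs_im_le_norm _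
  have hpos : ∀ t ∈ Icc 0 T, 0 < (γ t).re ∧ (γ t).re < Real.exp z := by
    intro t ht
    have h1 := abs_le.mp (hre 0 t le_rfl ht.1 ht.2)
    rw [hre0] at h1
    have := ht.2
    constructor <;> linarith [h1.1, h1.2]
  have hm0 : 0 < m := by
    obtain ⟨t, ht, rfl⟩ := hm'
    exact (hpos t ht).1
  -- the first time above the upper side
  have hcre : ContinuousOn (fun t => (γ t).re) (Icc 0 T) :=
    Complex.continuous_re.comp_continuousOn h.cont
  have hcim : ContinuousOn (fun t => (γ t).im) (Icc 0 T) :=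
    Complex.continuous_im.comp_continuousOn h.cont
  have hAc : IsCompact {t ∈ Icc 0 T | th z * (γ t).re ≤ (γ t).im} := by
    have : IsClosed {t ∈ Icc 0 T | th z * (γ t).re ≤ (γ t).im} :=
      isClosed_Icc.isClosed_le (continuousOn_const.mul hcre) hcim
    exact isCompact_Icc.of_isClosed_subset this fun t ht => ht.1
  obtain ⟨τ₂, ⟨hτ₂, hτ₂'⟩, hτ₂min⟩ := hAc.exists_isLeast
    ⟨T, ⟨⟨hT0, le_rfl⟩, by rw [hreT, himT, hthX]⟩⟩
  -- the last time below the lower side
  have hBc : IsCompact {t ∈ Icc 0 τ₂ | (γ t).im ≤ 0} := by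
    have : IsClosed {t ∈ Icc 0 τ₂ | (γ t).im ≤ 0} :=
      isClosed_Icc.isClosed_le (hcim.mono (Icc_subset_Icc_right hτ₂.2)) continuousOn_const
    exact isCompact_Icc.of_isClosed_subset this fun t ht => ht.1
  obtain ⟨τ₁, ⟨hτ₁, hτ₁'⟩, hτ₁max⟩ := hBc.exists_isGreatest
    ⟨0, ⟨⟨le_rfl, hτ₂.1⟩, him0.le⟩⟩
  have hexp : ∀ t ∈ Ioo τ₁ τ₂, t - τ₁ ≤ exposure ∅ (tri z) γ t := by
    intro t ht
    unfold exposure
    apply sub_le_sub_left
    apply Real.sSup_le _ hτ₁.1
    rintro r ⟨hr0, hrt, hr⟩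
    by_contra hlt
    push Not at hlt
    have hrT : r ∈ Icc 0 T := ⟨hr0, (hrt.trans ht.2.le).trans hτ₂.2⟩
    apply not_mem_Xsafe _ hr
    apply mem_interior_tri hz
    · by_contra hneg
      have := hτ₁max ⟨⟨hr0, hrt.trans ht.2.le⟩, not_lt.mp hneg⟩
      linarith
    · by_contra hneg
      have := hτ₂min ⟨hrT, not_lt.mp hneg⟩
      linarith [ht.2]
    · exact (hpos r hrT).2
  -- the cost
  have hint : ∀ {a b : ℝ},
      IntervalIntegrable (fun t => Real.exp (exposure ∅ (tri z) γ t)) volume a b :=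
    intervalIntegrable_exposure z γ
  have hone : ∀ {a b : ℝ}, 0 ≤ a → a ≤ b →
      b - a ≤ ∫ t in a..b, Real.exp (exposure ∅ (tri z) γ t) := by
    intro a b ha hab
    calc b - a = ∫ _ in a..b, (1 : ℝ) := by simp
      _ ≤ _ := by
        apply intervalIntegral.integral_mono_on hab (by simp) hint
        intro t ht
        exact Real.one_le_exp (exposure_nonneg (ha.trans ht.1))
  have hmid : Real.exp (τ₂ - τ₁) - 1 ≤ ∫ t in τ₁..τ₂, Real.exp (exposure ∅ (tri z) γ t) := by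
    have hcalc : ∫ t in τ₁..τ₂, Real.exp (t - τ₁) = Real.exp (τ₂ - τ₁) - 1 := by
      rw [intervalIntegral.integral_comp_sub_right (fun t => Real.exp t) τ₁]
      simp
    rw [← hcalc]
    apply intervalIntegral.integral_mono_on_of_le_Ioo hτ₁.2 _ hint
    · intro t ht
      exact Real.exp_le_exp.mpr (hexp t ht)
    · exact (Continuous.intervalIntegrable (by fun_prop) _ _)
  have hcost : cost ∅ (tri z) T γ = (∫ t in (0 : ℝ)..τ₁, Real.exp (exposure ∅ (tri z) γ t)) +
      (∫ t in τ₁..τ₂, Real.exp (exposure ∅ (tri z) γ t)) +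
      ∫ t in τ₂..T, Real.exp (exposure ∅ (tri z) γ t) := by
    unfold cost
    rw [intervalIntegral.integral_add_adjacent_intervals hint hint,
      intervalIntegral.integral_add_adjacent_intervals hint hint]
  have h1 := hone le_rfl hτ₁.1
  have h2 := hone hτ₂.1 hτ₂.2
  -- the length of the middle piece
  have hℓ : th z * m ≤ τ₂ - τ₁ := by
    have h3 := abs_le.mp (him τ₁ τ₂ hτ₁.1 hτ₁.2 hτ₂.2)
    have h4 : th z * m ≤ th z * (γ τ₂).re := mul_le_mul_of_nonneg_left (hm τ₂ hτ₂) hth0.le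
    linarith [h3.1]
  have hu0 : 0 ≤ th z * m := by positivity
  have hmono : Real.exp (th z * m) - 1 - th z * m ≤ Real.exp (τ₂ - τ₁) - 1 - (τ₂ - τ₁) := by
    have h5 : Real.exp (τ₂ - τ₁) = Real.exp (th z * m) * Real.exp (τ₂ - τ₁ - th z * m) := by
      rw [← Real.exp_add]; ring_nf
    have h6 := Real.add_one_le_exp (τ₂ - τ₁ - th z * m)
    have h7 := Real.one_le_exp hu0
    have h8 : 0 ≤ τ₂ - τ₁ - th z * m := by linarith
    rw [h5]
    nlinarith [mul_le_mul_of_nonneg_left h6 (Real.exp_pos (th z * m)).le]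
  have hlen : 2 * (XX z - m) ≤ T := by
    obtain ⟨t, ht, rfl⟩ := hm'
    have h3 := abs_le.mp (hre 0 t le_rfl ht.1 ht.2)
    have h4 := abs_le.mp (hre t T ht.1 ht.2 le_rfl)
    rw [hre0] at h3
    rw [hreT] at h4
    linarith [h3.2, h4.1]
  rw [hcost]
  linarith

end Pool.Agent.Helper87.RAM
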